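import Pool.Agent.H12R3.VR.All

/-!
# Vertically rigid functions with a point of continuity

Let `f : ℝ → ℝ` be vertically rigid: for every `c > 0` an isometry of the Euclidean plane maps the
graph of `c f` onto the graph of `f`. If `f` has at least one point of continuity, or if `f` is of
Baire class 1, then `f` is `a + b x` or `a + b exp (k x)`, everywhere.

This answers classes (ii) and (iii) of the second question of MP_1755e3_an (Balka and Elekes), in
a stronger form: no measurability is needed in (iii), and the conclusion holds at every point.

Proof: the closure `K` of the graph is invariant under uncountably many affine maps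
`A_c = φ_c ∘ (x, y) ↦ (x, c y)`, hence under a one-parameter group of affine maps; with a point of
continuity the graph is locally an orbit, so `f` is differentiable near every point of continuity.
Uncountably many maps `A_c' ⁻¹ A_c` preserve the graph over the interval of continuity, which gives
a differential equation for `f` there, with solutions `a + b x`, `a + b exp (k x)` only; finally the
interval is the whole line, or `f` is affine on the whole line by a shear argument.
-/

set_option autoImplicit false

open Filter Topology

namespace Pool.Agent.Results.MP_1755e3_an.OneContinuityPoint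

theorem result (f : ℝ → ℝ)
    (hf : ∀ c : ℝ, 0 < c → ∃ φ : EuclideanSpace ℝ (Fin 2) ≃ᵢ EuclideanSpace ℝ (Fin 2),
      φ '' Set.range (fun x : ℝ => (WithLp.toLp 2 ![x, c * f x] : EuclideanSpace ℝ (Fin 2)))
        = Set.range (fun x : ℝ => (WithLp.toLp 2 ![x, f x] : EuclideanSpace ℝ (Fin 2))))
    (h : (∃ x₀ : ℝ, ContinuousAt f x₀) ∨
      ∃ F : ℕ → ℝ → ℝ, (∀ n, Continuous (F n)) ∧ ∀ x, Tendsto (fun n => F n x) atTop (𝓝 (f x))) :
    (∃ a b : ℝ, ∀ x, f x = a + b * x) ∨ ∃ a b k : ℝ, ∀ x, f x = a + b * Real.exp (k * x) :=
  H12VR.main f hf h

end Pool.Agent.Results.MP_1755e3_an.OneContinuityPoint
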